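import Mathlib
import Pool.Agent.T6.H62.HamFinal

/-!
# Bootstrap percolation on Hamming tori: no gap in dimension four with threshold three

For `d = 4` and threshold `3` the critical values for an open plane and for the whole torus are
within a factor three of each other for all large `n`, so that the gap between the exponents does
not hold for every dimension `d ≥ 4` and every threshold `θ > 2`.
-/

set_option autoImplicit false

open MeasureTheory ProbabilityTheory Filter Topology

namespace Pool.Agent.Results.MP_af82af_pr.NoGapDimFour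

open Pool.Agent.R958.Ham Pool.Agent.T6.H62.Ham

/-- For threshold `3` and dimension `4`: for all large `n` the critical values `p = p_c(2, 4)` and
`q = p_c(4, 4)` exist, are unique, and satisfy `0 < p ≤ q ≤ 3 * p`; consequently
`log_n q - log_n p` tends to `0`; in particular it is not true that for all `d ≥ 4` and `θ > 2` the
difference `log_n p_c(d, d) - log_n p_c(2, d)` is eventually bounded below by a positive
constant. -/
theorem result :
    (∀ᶠ n : ℕ in atTop, (∃! p, IsCritical n 4 3 2 p) ∧ (∃! q, IsCritical n 4 3 4 q) ∧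
      ∀ p q, IsCritical n 4 3 2 p → IsCritical n 4 3 4 q → 0 < p ∧ p ≤ q ∧ q ≤ 3 * p) ∧
    (∀ p q : ℕ → ℝ, (∀ᶠ n : ℕ in atTop, IsCritical n 4 3 2 (p n)) →
      (∀ᶠ n : ℕ in atTop, IsCritical n 4 3 4 (q n)) →
      Tendsto (fun n : ℕ => Real.logb n (q n) - Real.logb n (p n)) atTop (𝓝 0)) ∧
    ¬ ∀ d θ : ℕ, 4 ≤ d → 2 < θ → ∃ ε : ℝ, 0 < ε ∧ ∀ᶠ n : ℕ in atTop,
      ∀ p q, IsCritical n d θ 2 p → IsCritical n d θ d q →
        ε ≤ Real.logb n q - Real.logb n p := by
  refine ⟨comparable, no_gap, ?_⟩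
  intro h
  obtain ⟨ε, hε, hn⟩ := h 4 3 le_rfl (by norm_num)
  have hex : ∀ n : ℕ, ∃ r : ℝ × ℝ, 1 ≤ n → IsCritical n 4 3 2 r.1 ∧ IsCritical n 4 3 4 r.2 := by
    intro n
    by_cases h1 : 1 ≤ n
    · obtain ⟨p, hp⟩ := exists_critical (n := n) (d := 4) (θ := 3) (i := 2) (by norm_num)
        (by norm_num) h1
      obtain ⟨q, hq⟩ := exists_critical (n := n) (d := 4) (θ := 3) (i := 4) (by norm_num)
        (by norm_num) h1
      exact ⟨(p, q), fun _ => ⟨hp, hq⟩⟩
    · exact ⟨(0, 0), fun h => absurd h h1⟩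
  choose r hr using hex
  have hp : ∀ᶠ n : ℕ in atTop, IsCritical n 4 3 2 (r n).1 :=
    (eventually_ge_atTop 1).mono fun n hn => (hr n hn).1
  have hq : ∀ᶠ n : ℕ in atTop, IsCritical n 4 3 4 (r n).2 :=
    (eventually_ge_atTop 1).mono fun n hn => (hr n hn).2
  have ht := no_gap (fun n => (r n).1) (fun n => (r n).2) hp hq
  obtain ⟨n, h1, h2, h3, h4⟩ := (hn.and (hp.and (hq.and (ht.eventually_lt_const hε)))).exists
  have := h1 _ _ h2 h3
  linarith

end Pool.Agent.Results.MP_af82af_pr.NoGapDimFour
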